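import Mathlib
import Pool.Agent.K4H21.DB.Exo
import Pool.Agent.K4H94.DB.Def
import Pool.Agent.K4H34.DB.Dec2

/-!
# The Hodge conjecture for all powers of an abelian variety is controlled by few Weil classes

Let `X` be a complex abelian variety with complex multiplication. The Hodge classes on the powers of
`X` were described by Pohlmann, and Deligne and André proved that they are all combinations of
pull-backs of Weil classes of CM fields `T`; the fields `T` which occur in the proof are Galois CM
fields that contain all the fields of the factors of `X`, and their number and degrees depend on `X`.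
The theorem bounds the number of the Weil classes and the degrees of the CM fields in terms of the
defect

  `r = dim X' - dim Hg (X)`,

where `X'` is the product of the pairwise non-isogenous simple factors of `X` and `Hg (X)` is the
Hodge group. The simple factors without complex multiplication are allowed as well if they belong to
the classes in which the Hodge classes are understood (`Nice`); then `r` is the defect of the part of
`X` with complex multiplication.

1. There are at most `r` Weil classes `w i`, of CM fields `T i` on abelian varieties `B i` with
   complex multiplication which are factors of powers of `X`, such that the Hodge conjecture for all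
   powers of `X` is equivalent to the algebraicity of the `w i`.
2. There are such Weil classes with `∑ [T i : ℚ] ≤ 2 ^ (r + 1) - 2`; their number is at most
   `2 ^ r - 1`. So only CM fields `T` of degree at most `2 ^ (r + 1) - 2` are needed, whatever the
   dimension of `X` is. If `r = 1` this is one Weil class of one imaginary quadratic field.
3. If `r = 1` and if on some factor with complex multiplication of some power of `X` there is a Hodge
   class of degree at most six which is not a combination of products of divisor classes, then the
   Hodge conjecture is true for all powers of `X`.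

In 1. and 2. no Weil classes of imaginary quadratic fields on abelian varieties of dimension less
than eight are needed. The algebraic classes enter only through the closure properties which define
a system of classes (`Sys`): a system contains the Hodge classes of degree two and the Weil classes of
imaginary quadratic fields on abelian fourfolds and on abelian sixfolds with trivial discriminant
(algebraic by the theorems of Lefschetz and Markman), and it is stable under linear combinations, cup
products, pull-backs and push-forwards. The theorem holds for every system, for instance for the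
system of the algebraic classes and for the smallest system; so the equivalence in 1. and 2. is an
equivalence of the Hodge conjecture for all powers of `X` with the algebraicity of the `w i`, and 3.
says that the Hodge conjecture is true.

The proof: let `L` be a Galois CM field which contains the fields of the factors, `G` its Galois
group. The classes correspond to families of half systems in `G`, the Hodge classes to the families
whose sign functions have sum zero, and a class is a combination of products of divisors with a class
which only depends on the odd part of the family, an element of the lattice `Λ` of rank `r` of the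
odd relations between the sign functions. If a relation belongs to the system then so do its
translates under `G`, and the relations belonging to the system form a subgroup (cancellation of
conjugate pairs by push-forward). Each relation `v` in `Λ` comes from a Weil class of the fixed field
`T` of the stabilizer of `v` in `G`, on an abelian variety built from the fixed fields of the
stabilizers of the half systems which occur in `v`. For 1. one takes a basis of `Λ`. For 2. one takes
the vectors of `Λ` that are not a sum of two shorter vectors: they generate `Λ`, they are, up to sign,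
pairwise incongruent modulo `2 Λ`, and so their number is at most `2 (2 ^ r - 1)`, and the degree of
`T` is the length of the orbit of `v`. If `r = 1` then `T` is imaginary quadratic, and the length of
the relation bounds the degree of the exotic Hodge classes from below.
-/

set_option autoImplicit false

namespace Pool.Agent.K4H21.DB.Cand

open Module NumberField Pool.Agent.Y90 Pool.Agent.R915 Pool.Agent.K4H29.HC Pool.Agent.K4H21.DB
open Pool.Agent.H204R3.CM (IsHodge)
open Pool.Agent.W547.KB (CMPair CMAV Wt St)
open Pool.Agent.W547.LN (SameType)
open Pool.Agent.K4H94.DB (defect_eq_gen)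
open Pool.Agent.K4H34.DB (dec)

/-- A Galois CM field containing all conjugates of the fields of the factors. -/
theorem exists_cm' (X : CMAV) :
    ∃ (L : Type) (_ : Field L) (_ : NumberField L) (_ : IsCMField L) (_ : IsGalois ℚ L)
      (j : L →+* ℂ), ∀ i, ∀ ψ : (X.factor i).E →+* ℂ,
        ∃ φ : (X.factor i).E →+* L, j.comp φ = ψ := by
  rcases isEmpty_or_nonempty X.I with h | h
  · have _ : NeZero ((3 : ℕ) : ℚ) := ⟨by norm_num⟩
    have _ : IsCyclotomicExtension {3} ℚ (CyclotomicField 3 ℚ) :=
      CyclotomicField.isCyclotomicExtension 3 ℚ
    have _ : IsCMField (CyclotomicField 3 ℚ) :=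
      IsCyclotomicExtension.Rat.isCMField (CyclotomicField 3 ℚ) (S := {3}) ⟨3, rfl, by norm_num⟩
    have _ : IsGalois ℚ (CyclotomicField 3 ℚ) := IsCyclotomicExtension.isGalois {3} ℚ _
    exact ⟨CyclotomicField 3 ℚ, inferInstance, inferInstance, inferInstance, inferInstance,
      Classical.choice inferInstance, fun i => (h.false i).elim⟩
  · exact Pool.Agent.W547.KB.exists_cm X

/-- **The Hodge conjecture for all powers of an abelian variety of defect `r` is controlled by at
most `r` Weil classes, and by Weil classes of CM fields with sum of degrees at most
`2 ^ (r + 1) - 2`; it is true if `r = 1` and there is an exotic Hodge class of degree at most six.** -/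
theorem result (X : AV) (hX : ∀ Y, IsFactor Y X → HasCMult Y ∨ Nice X Y) :
    (∃ (ι : Type) (_ : Fintype ι) (W : ι → WeilData)
      (w : ∀ i, (W i).B.H [⋀^Fin (W i).n]→ₗ[ℚ] ℚ),
      Fintype.card ι ≤ defect X ∧ Controls X W w) ∧
    (∃ (ι : Type) (_ : Fintype ι) (W : ι → WeilData)
      (w : ∀ i, (W i).B.H [⋀^Fin (W i).n]→ₗ[ℚ] ℚ),
      Fintype.card ι ≤ 2 ^ defect X - 1 ∧ ∑ i, finrank ℚ (W i).T ≤ 2 ^ (defect X + 1) - 2 ∧
      Controls X W w) ∧
    (defect X = 1 → ∀ B : AV, IsPowerFactor B X → (∀ Y, IsFactor Y B → HasCMult Y) →
      ∀ (κ : Type) [Finite κ] (f : B.H [⋀^κ]→ₗ[ℚ] ℚ), Nat.card κ ≤ 6 → IsHodge B.per f →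
      ¬Lef B κ f → ∀ (𝒜 : Sys) (m : ℕ), 𝒜.AllHodge (pow X m)) := by
  obtain ⟨X0, h1, h2, h3, I, R, hI, hR, hRI, -⟩ := dec X
  obtain ⟨L, _, _, _, _, j, hj⟩ := exists_cm' X0
  have hd : defect X = finrank ℤ (Lam (PX j X0)) := defect_eq_gen j h1 h2 hj
  rw [hd]
  refine ⟨?_, ?_, ?_⟩
  · obtain ⟨ι, hι, W, w, g1, g2, g3, g4⟩ :=
      exists_basis_family j (isHalf_PX j X0) (tr_PX j X0)
    refine ⟨ι, hι, W, w, g1, ?_⟩
    have h6 : ∀ i, IsPowerFactor (W i).B X := fun i =>
      powerFactor_of_retract I R hI hR hRI (g3 X0 rfl i)
    exact
      { factor := h6
        cm := fun i Y hY => cm_of_powerFactor (fun i => (h1 i).1) (g3 X0 rfl i) hY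
        weil := fun i => (g2 i).1
        ne_zero := fun i => (g2 i).2.1
        four_le := fun i => (g2 i).2.2.1
        even := fun i => (g2 i).2.2.2.1
        eight_le := fun i => (g2 i).2.2.2.2
        iff := fun 𝒜 => ⟨fun h i => mem_of_powerFactor 𝒜 (h6 i) h _ (w i) (g2 i).1.1,
          fun h n => mix_of_ok j hj 𝒜 hX h3 (g4 𝒜 h) n⟩ }
  · obtain ⟨ι, hι, W, w, g0, g1, g2, g3, g4⟩ :=
      exists_family j (isHalf_PX j X0) (tr_PX j X0)
    refine ⟨ι, hι, W, w, g0, g1, ?_⟩
    have h6 : ∀ i, IsPowerFactor (W i).B X := fun i =>
      powerFactor_of_retract I R hI hR hRI (g3 X0 rfl i)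
    exact
      { factor := h6
        cm := fun i Y hY => cm_of_powerFactor (fun i => (h1 i).1) (g3 X0 rfl i) hY
        weil := fun i => (g2 i).1
        ne_zero := fun i => (g2 i).2.1
        four_le := fun i => (g2 i).2.2.1
        even := fun i => (g2 i).2.2.2.1
        eight_le := fun i => (g2 i).2.2.2.2
        iff := fun 𝒜 => ⟨fun h i => mem_of_powerFactor 𝒜 (h6 i) h _ (w i) (g2 i).1.1,
          fun h n => mix_of_ok j hj 𝒜 hX h3 (g4 𝒜 h) n⟩ }
  · intro hr B hBX hB κ _ f hκ hf hL 𝒜 m
    obtain ⟨B0, k1, k2, k3, I', R', hI', hR', -, hIR'⟩ := dec B
    have hs : ∀ i, ∃ i', SameType (B0.factor i) (X0.factor i') := fun i =>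
      h2 _ (isCMFactor_trans (k1 i) hBX)
    exact mix_of_ok j hj 𝒜 hX h3
      (one_exo j hj hs 𝒜 hr I' R' hI' hR' (hIR' hB) (by omega) f hf hL) m

end Pool.Agent.K4H21.DB.Cand
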